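import Pool.Agent.H.MP_d8826e_co.LB.Fin
import Pool.Agent.H.MP_d8826e_co.LB.Cert

/-!
The bound `τ_t(H) ≤ 2 (n + m) / (K + 2)` for `2 ≤ K ≤ 15`.
-/

set_option autoImplicit false

namespace Pool.Agent.H.MP_d8826e_co.LB

theorem bound_of_cert {K : ℕ} {t : List ℕ} {w : List Row} (h : OkCert K t w) {V : Type}
    [Fintype V] {E : Finset (Finset V)} (hE : InH K E) :
    (K + 2) * tauT E ≤ 2 * (Fintype.card V + E.card) :=
  tauT_bound h.1 (s := 20000) (by norm_num) (fun _ hd => GG_pos hd) (good_of_cert h)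
    (by norm_num) hE

theorem bound {K : ℕ} (h2 : 2 ≤ K) (h15 : K ≤ 15) {V : Type} [Fintype V]
    {E : Finset (Finset V)} (hE : InH K E) :
    (K + 2) * tauT E ≤ 2 * (Fintype.card V + E.card) := by
  interval_cases K
  · exact bound_of_cert cert2 hE
  · exact bound_of_cert cert3 hE
  · exact bound_of_cert cert4 hE
  · exact bound_of_cert cert5 hE
  · exact bound_of_cert cert6 hE
  · exact bound_of_cert cert7 hE
  · exact bound_of_cert cert8 hE
  · exact bound_of_cert cert9 hE
  · exact bound_of_cert cert10 hE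
  · exact bound_of_cert cert11 hE
  · exact bound_of_cert cert12 hE
  · exact bound_of_cert cert13 hE
  · exact bound_of_cert cert14 hE
  · exact bound_of_cert cert15 hE

end Pool.Agent.H.MP_d8826e_co.LB
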