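import Pool.Agent.H.MP_d8826e_co.LB.Play

/-!
The numerical conditions on the two potential functions, second form: the pair (vertex which is not
free, neighbour) is chosen such that the neighbour keeps as many edges as possible.
-/

set_option autoImplicit false

namespace Pool.Agent.H.MP_d8826e_co.LB

/-- The neighbour shares more than `r` edges with the vertex of degree `D` and keeps `r` edges. Then
the vertices of degree `D` which are not free are not met in the second step. -/
def Cell1 (K : ℕ) (N : ℤ) (F G : ℕ → ℤ) (j D r : ℕ) : Prop :=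
  ∃ lam mu, SlotF F lam j r ∧ SlotG F G lam D r ∧ SlotF F mu (max j r) (max j r) ∧
    SlotG F G mu (D - 1) D ∧ 2 * N ≤ G D + (D * (K - 1) : ℕ) * lam + (F r + (r * (K - 1) : ℕ) * mu)

/-- All neighbours which keep `r` edges share at most `r` edges with the vertex of degree `D`. -/
def Cell2 (K : ℕ) (N : ℤ) (F G : ℕ → ℤ) (j D r : ℕ) : Prop :=
  ∃ lam mu, (∀ a c : ℕ, 0 < c → a + c ≤ j → a ≤ r → (a = r → c ≤ r) → lam * c ≤ F (a + c) - F a) ∧
    (∀ a c : ℕ, 0 < c → a + c ≤ D → a ≤ r → (a = r → c ≤ r) → lam * c ≤ G (a + c) - F a) ∧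
    SlotF F mu (max j r) (max j r) ∧
    SlotG F G mu D D ∧ 2 * N ≤ G D + (D * (K - 1) : ℕ) * lam + (F r + (r * (K - 1) : ℕ) * mu)

/-- The numerical conditions on the two potential functions, second form. -/
structure Good2 (K : ℕ) (N : ℤ) (F G : ℕ → ℤ) : Prop where
  F0 : F 0 = 0
  G0 : G 0 = 0
  play : ∀ j D, 1 ≤ j ∨ 2 ≤ D → (1 ≤ j ∧ Play1 K N F G j D) ∨
    (j < D ∧ ∀ r, r < D → Cell1 K N F G j D r ∧ Cell2 K N F G j D r)

end Pool.Agent.H.MP_d8826e_co.LB
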