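import Pool.Agent.H.MP_d8826e_co.LB.Main
import Pool.Agent.H.MP_d8826e_co.LB.Play2

/-!
The greedy choice of a total transversal, second form: the choice of the pair.
-/

set_option autoImplicit false

namespace Pool.Agent.H.MP_d8826e_co.LB

open Finset

variable {V : Type} [Fintype V] [DecidableEq V]

theorem cod_del (R : Finset (Finset V)) (u w v : V) (h : cod R u v = 0) :
    cod (del R v) u w = cod R u w := by
  unfold cod del
  rw [filter_filter]
  congr 1
  ext e
  simp only [mem_filter]
  constructor
  · rintro ⟨h1, _, h2⟩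
    exact ⟨h1, h2⟩
  · rintro ⟨h1, h2⟩
    refine ⟨h1, fun h3 => ?_, h2⟩
    have h4 : 0 < cod R u v := cod_pos.2 ⟨e, h1, h2.1, h3⟩
    omega

/-- **The greedy algorithm**, second form. -/
theorem greedy2 {K : ℕ} (hK2 : 2 ≤ K) {N : ℤ} (hN : 0 ≤ N) {F G : ℕ → ℤ} (hg : Good2 K N F G)
    {E : Finset (Finset V)} (hK : ∀ e ∈ E, e.card = K)
    (hiso : ∀ e ∈ E, ∃ f ∈ E, f ≠ e ∧ ∃ v, v ∈ e ∧ v ∈ f) :
    ∀ n, ∀ R : Finset (Finset V), R.card ≤ n → R ⊆ E →
      ∃ T : Finset V, Sol E R T ∧ N * T.card ≤ Pot F G E R := by
  intro n
  induction n using Nat.strong_induction_on with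
  | _ n ih =>
  intro R hRn hR
  have hKR : ∀ e ∈ R, e.card = K := fun e he => hK e (hR he)
  rcases R.eq_empty_or_nonempty with rfl | ⟨e0, he0⟩
  · refine ⟨∅, ⟨by simp, by simp⟩, ?_⟩
    have : Pot F G E (∅ : Finset (Finset V)) = 0 := by
      unfold Pot
      refine sum_eq_zero fun u _ => ?_
      unfold pot
      have : deg (∅ : Finset (Finset V)) u = 0 := by simp [deg]
      rw [this, hg.F0, hg.G0]
      simp
    rw [this]
    simp
  set A := univ.filter (fun u => Free E R u) with hA
  set B := univ.filter (fun u => ¬ Free E R u) with hB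
  set j := A.sup (deg R) with hj
  set D := B.sup (deg R) with hD
  have hjle : ∀ u, Free E R u → deg R u ≤ j := fun u hu =>
    le_sup (f := deg R) (mem_filter.2 ⟨mem_univ u, hu⟩)
  have hDle : ∀ u, ¬ Free E R u → deg R u ≤ D := fun u hu =>
    le_sup (f := deg R) (mem_filter.2 ⟨mem_univ u, hu⟩)
  have hjD : 1 ≤ j ∨ 2 ≤ D := by
    by_contra hcon
    push Not at hcon
    obtain ⟨hj0, hD1⟩ := hcon
    obtain ⟨f, hf, hfe, v, hve, hvf⟩ := hiso e0 (hR he0)
    have hdv : 0 < deg R v := deg_pos.2 ⟨e0, he0, hve⟩
    have hnf : ¬ Free E R v := fun h => by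
      have := hjle v h
      omega
    have hfR : f ∈ R := by
      by_contra h
      exact hnf ⟨f, hf, h, hvf⟩
    have h2 : 2 ≤ deg R v := by
      unfold deg
      have : ({e0, f} : Finset (Finset V)) ⊆ R.filter fun e => v ∈ e := by
        intro x hx
        rw [mem_insert, mem_singleton] at hx
        rcases hx with rfl | rfl
        · exact mem_filter.2 ⟨he0, hve⟩
        · exact mem_filter.2 ⟨hfR, hvf⟩
      have h3 := card_le_card this
      rw [card_pair hfe.symm] at h3
      exact h3
    have := hDle v hnf
    omega
  have key : ∀ u, u ∈ (univ : Finset V) → True := fun _ _ => trivial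
  rcases hg.play j D hjD with ⟨hj1, l, hl1, hl2, hl3⟩ | ⟨hjD', hp⟩
  · -- one free vertex
    have hAne : A.Nonempty := by
      rw [nonempty_iff_ne_empty]
      intro h
      rw [hj, h, sup_empty] at hj1
      simp at hj1
    obtain ⟨v, hvA, hvj⟩ := exists_mem_eq_sup A hAne (deg R)
    have hvf : Free E R v := (mem_filter.1 hvA).2
    have hvj' : deg R v = j := hvj.symm
    have hlt : (del R v).card < n := lt_of_lt_of_le (del_card_lt (by omega)) hRn
    obtain ⟨T, hT, hTN⟩ := ih _ hlt (del R v) le_rfl ((del_subset R v).trans hR)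
    refine ⟨insert v T, hT.insert_free hR hvf, ?_⟩
    have hst := step hg.F0 hg.G0 hR hKR v l (fun u huv hc => by
      have hdeg := deg_del R u v
      by_cases hu : Free E R u
      · have h1 := hjle u hu
        unfold pot
        rw [if_pos hu, ← hdeg]
        exact hl1 _ _ hc (by omega) (by omega)
      · have h1 := hDle u hu
        unfold pot
        rw [if_neg hu, ← hdeg]
        exact hl2 _ _ hc (by omega) (by omega))
    have hpv : pot F G E R v = F j := by
      unfold pot
      rw [if_pos hvf, hvj']
    rw [hpv, hvj'] at hst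
    have hc : ((insert v T).card : ℤ) ≤ T.card + 1 := by exact_mod_cast card_insert_le v T
    nlinarith
  · -- a pair of neighbours
    have hBne : B.Nonempty := by
      rw [nonempty_iff_ne_empty]
      intro h
      rw [hD, h, sup_empty] at hjD'
      simp at hjD'
    obtain ⟨v0, hvB0, hvD0⟩ := exists_mem_eq_sup B hBne (deg R)
    have hvf0 : ¬ Free E R v0 := (mem_filter.1 hvB0).2
    have hdv0 : 0 < deg R v0 := by rw [← hvD0]; omega
    set P := (univ : Finset (V × V)).filter
      (fun p => ¬ Free E R p.1 ∧ deg R p.1 = D ∧ p.2 ≠ p.1 ∧ 0 < cod R p.2 p.1) with hP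
    have hPne : P.Nonempty := by
      obtain ⟨e, he, hve⟩ := deg_pos.1 hdv0
      have : 1 < e.card := by rw [hKR e he]; omega
      obtain ⟨w, hw, hne⟩ := exists_mem_ne this v0
      exact ⟨(v0, w), mem_filter.2 ⟨mem_univ _, hvf0, hvD0.symm, hne,
        cod_pos.2 ⟨e, he, hw, hve⟩⟩⟩
    obtain ⟨p0, hp0, hpmax⟩ := exists_max_image P (fun p => deg (del R p.1) p.2) hPne
    have hmemP : ∀ v w, (v, w) ∈ P ↔ (¬ Free E R v ∧ deg R v = D ∧ w ≠ v ∧ 0 < cod R w v) := by
      intro v w
      rw [hP, mem_filter]
      exact ⟨fun h => h.2, fun h => ⟨mem_univ _, h⟩⟩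
    set r := deg (del R p0.1) p0.2 with hr
    have hmax : ∀ v w, (v, w) ∈ P → deg (del R v) w ≤ r := fun v w h => hpmax (v, w) h
    have hrD : r < D := by
      obtain ⟨_, _, _, h4⟩ := (hmemP p0.1 p0.2).1 hp0
      have h1 := deg_del R p0.2 p0.1
      by_cases hw : Free E R p0.2
      · have := hjle _ hw
        omega
      · have := hDle _ hw
        omega
    -- the common part of the two cases
    have main : ∀ v w, (v, w) ∈ P → deg (del R v) w = r → ∀ lam mu : ℤ,
        (∀ u, u ≠ v → 0 < cod R u v → lam * cod R u v ≤ pot F G E R u - F (deg (del R v) u)) →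
        (∀ u, u ≠ w → 0 < cod (del R v) u w →
          mu * cod (del R v) u w ≤ pot F G E (del R v) u - F (deg (del (del R v) w) u)) →
        2 * N ≤ G D + (D * (K - 1) : ℕ) * lam + (F r + (r * (K - 1) : ℕ) * mu) →
        ∃ T : Finset V, Sol E R T ∧ N * T.card ≤ Pot F G E R := by
      intro v w hvw hwr lam mu hlam hmu h5
      obtain ⟨hvf, hvD, hwv, hwc⟩ := (hmemP v w).1 hvw
      have hdv : 0 < deg R v := by rw [hvD]; omega
      have hR1 : del R v ⊆ E := (del_subset R v).trans hR
      have hlt : (del (del R v) w).card < n :=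
        lt_of_le_of_lt (card_le_card (del_subset _ _)) (lt_of_lt_of_le (del_card_lt hdv) hRn)
      obtain ⟨T, hT, hTN⟩ := ih _ hlt (del (del R v) w) le_rfl ((del_subset _ w).trans hR1)
      refine ⟨insert v (insert w T), hT.insert_pair hR hwv hwc, ?_⟩
      have hst := step hg.F0 hg.G0 hR hKR v lam hlam
      have hKR1 : ∀ e ∈ del R v, e.card = K := fun e he => hKR e (del_subset R v he)
      have hst2 := step hg.F0 hg.G0 hR1 hKR1 w mu hmu
      have hpv : pot F G E R v = G D := by
        unfold pot
        rw [if_neg hvf, hvD]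
      have hpw : pot F G E (del R v) w = F r := by
        unfold pot
        rw [if_pos (Free.del_of_cod hR hwc), hwr]
      rw [hpv, hvD] at hst
      rw [hpw, hwr] at hst2
      have hc : ((insert v (insert w T)).card : ℤ) ≤ T.card + 2 := by
        have h6 := card_insert_le v (insert w T)
        have h7 := card_insert_le w T
        have h8 : (insert v (insert w T)).card ≤ T.card + 2 := by omega
        exact_mod_cast h8
      nlinarith
    -- free vertices in the second step
    have hfree : ∀ v w, (v, w) ∈ P → ∀ u, Free E (del R v) u → 0 < deg (del R v) u →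
        deg (del R v) u ≤ max j r := by
      intro v w hvw u hu hpos
      obtain ⟨hvf, hvD, hwv, hwc⟩ := (hmemP v w).1 hvw
      rcases hu.of_del with h6 | h6
      · exact le_trans (deg_mono (del_subset R v) u) (le_trans (hjle u h6) (le_max_left _ _))
      · have huv : u ≠ v := by
          rintro rfl
          have := deg_del_self R u
          omega
        exact le_trans (hmax v u ((hmemP v u).2 ⟨hvf, hvD, huv, h6⟩)) (le_max_right _ _)
    by_cases hex : ∃ v w, (v, w) ∈ P ∧ deg (del R v) w = r ∧ r < cod R w v
    · obtain ⟨v, w, hvw, hwr, hcw⟩ := hex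
      obtain ⟨hvf, hvD, hwv, hwc⟩ := (hmemP v w).1 hvw
      obtain ⟨lam, mu, h1, h2, h3, h4, h5⟩ := (hp r hrD).1
      refine main v w hvw hwr lam mu (fun u huv hc => ?_) (fun u huw hc => ?_) h5
      · have hdeg := deg_del R u v
        have hur : deg (del R v) u ≤ r := hmax v u ((hmemP v u).2 ⟨hvf, hvD, huv, hc⟩)
        by_cases hu : Free E R u
        · have h1' := hjle u hu
          unfold pot
          rw [if_pos hu, ← hdeg]
          exact h1 _ _ hc (by omega) hur
        · have h1' := hDle u hu
          unfold pot
          rw [if_neg hu, ← hdeg]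
          exact h2 _ _ hc (by omega) hur
      · have hdeg := deg_del (del R v) u w
        by_cases hu : Free E (del R v) u
        · have h1' := hfree v w hvw u hu (by omega)
          unfold pot
          rw [if_pos hu, ← hdeg]
          exact h3 _ _ hc (by omega) (by omega)
        · have h6 : ¬ Free E R u := fun h => hu (h.mono (del_subset R v))
          have h7 : cod R u v = 0 := by
            by_contra h
            exact hu (Free.del_of_cod hR (by omega))
          have h8 : deg (del R v) u = deg R u := by
            have := deg_del R u v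
            omega
          have h9 : cod (del R v) u w = cod R u w := by
            have h10 := cod_del R u w v h7
            exact h10
          have h1' : deg (del R v) u ≤ D - 1 := by
            by_contra hcon
            have h11 := hDle u h6
            have h12 : deg R u = D := by omega
            have h13 := hmax u w ((hmemP u w).2 ⟨h6, h12, huw.symm, by rw [cod_comm, ← h9]; exact hc⟩)
            have h14 := deg_del R w u
            have h15 := deg_del R w v
            have h16 := deg_del (del R v) w u
            rw [cod_comm (del R v) w u, h9, ← cod_comm R w u] at h16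
            omega
          unfold pot
          rw [if_neg hu, ← hdeg]
          exact h4 _ _ hc (by omega) (by omega)
    · push Not at hex
      obtain ⟨lam, mu, h1, h2, h3, h4, h5⟩ := (hp r hrD).2
      obtain ⟨hvf, hvD, hwv, hwc⟩ := (hmemP p0.1 p0.2).1 hp0
      refine main p0.1 p0.2 hp0 hr.symm lam mu (fun u huv hc => ?_) (fun u huw hc => ?_) h5
      · have hdeg := deg_del R u p0.1
        have hPu : (p0.1, u) ∈ P := (hmemP p0.1 u).2 ⟨hvf, hvD, huv, hc⟩
        have hur : deg (del R p0.1) u ≤ r := hmax p0.1 u hPu
        have hcu : deg (del R p0.1) u = r → cod R u p0.1 ≤ r := fun h => hex p0.1 u hPu h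
        by_cases hu : Free E R u
        · have h1' := hjle u hu
          unfold pot
          rw [if_pos hu, ← hdeg]
          exact h1 _ _ hc (by omega) hur hcu
        · have h1' := hDle u hu
          unfold pot
          rw [if_neg hu, ← hdeg]
          exact h2 _ _ hc (by omega) hur hcu
      · have hdeg := deg_del (del R p0.1) u p0.2
        by_cases hu : Free E (del R p0.1) u
        · have h1' := hfree p0.1 p0.2 hp0 u hu (by omega)
          unfold pot
          rw [if_pos hu, ← hdeg]
          exact h3 _ _ hc (by omega) (by omega)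
        · have h6 : ¬ Free E R u := fun h => hu (h.mono (del_subset R p0.1))
          have h1' : deg (del R p0.1) u ≤ D :=
            le_trans (deg_mono (del_subset R p0.1) u) (hDle u h6)
          unfold pot
          rw [if_neg hu, ← hdeg]
          exact h4 _ _ hc (by omega) (by omega)

end Pool.Agent.H.MP_d8826e_co.LB
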