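import Pool.Agent.H.MP_d8826e_co.LB.All
import Pool.Agent.H.MP_d8826e_co.LB.Main2
import Pool.Agent.H.MP_d8826e_co.LB.Cert2

/-!
The bound `τ_t(H) ≤ 2 (n + m) / (K + 2)` for `2 ≤ K ≤ 16`.
-/

set_option autoImplicit false

namespace Pool.Agent.H.MP_d8826e_co.LB

open Finset

/-- The bound for one hypergraph, second form. -/
theorem tauT_bound2 {K : ℕ} (hK2 : 2 ≤ K) {s : ℤ} (hs : 0 < s) {F G : ℕ → ℤ}
    (hG : ∀ d, 1 ≤ d → G d = s * (K + d)) (hg : Good2 K (s * (K * (K + 2)) / 2) F G)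
    (he : 2 ∣ s) {V : Type} [Fintype V] {E : Finset (Finset V)} (hE : InH K E) :
    (K + 2) * tauT E ≤ 2 * (Fintype.card V + E.card) := by
  classical
  obtain ⟨s', rfl⟩ := he
  have hN : 2 * s' * ((K : ℤ) * (K + 2)) / 2 = s' * (K * (K + 2)) := by
    rw [mul_assoc, Int.mul_ediv_cancel_left _ (by norm_num)]
  rw [hN] at hg
  have hs' : 0 < s' := by omega
  obtain ⟨T, hT, hTN⟩ := greedy2 hK2 (by positivity) hg hE.uniform hE.noIsolatedEdge E.card E le_rfl
    (Subset.refl E)
  have hnf : ∀ u : V, ¬ Free E E u := by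
    rintro u ⟨e, h1, h2, _⟩
    exact h2 h1
  have hTT : IsTotalTransversal E T :=
    ⟨hT.meets, fun t ht => (hT.ok t ht).resolve_right (hnf t)⟩
  have h1 : tauT E ≤ T.card := Nat.sInf_le ⟨T, hTT, rfl⟩
  have h2 : Pot F G E E = 2 * s' * (K * (Fintype.card V + E.card)) := by
    unfold Pot
    have h3 : ∀ u : V, pot F G E E u = 2 * s' * (K + deg E u) := by
      intro u
      unfold pot
      rw [if_neg (hnf u)]
      exact hG _ (deg_pos.2 (hE.noIsolatedVertex u))
    simp only [h3]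
    rw [← mul_sum, sum_add_distrib]
    have h4 : (∑ u : V, (deg E u : ℤ)) = K * E.card := by
      have := sum_deg hE.uniform
      exact_mod_cast this
    rw [h4, sum_const, card_univ, nsmul_eq_mul]
    ring
  rw [h2] at hTN
  have hK0 : (0 : ℤ) < K := by omega
  have h5 : ((K : ℤ) + 2) * T.card ≤ 2 * (Fintype.card V + E.card) := by
    have h6 : (s' * K) * (((K : ℤ) + 2) * T.card) ≤ (s' * K) * (2 * (Fintype.card V + E.card)) := by
      linarith
    exact le_of_mul_le_mul_left h6 (by positivity)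
  have h7 : (K + 2) * T.card ≤ 2 * (Fintype.card V + E.card) := by exact_mod_cast h5
  exact le_trans (Nat.mul_le_mul_left _ h1) h7

/-- The bound for `2 ≤ K ≤ 16`. -/
theorem bound16 {K : ℕ} (h2 : 2 ≤ K) (h16 : K ≤ 16) {V : Type} [Fintype V]
    {E : Finset (Finset V)} (hE : InH K E) :
    (K + 2) * tauT E ≤ 2 * (Fintype.card V + E.card) := by
  rcases Nat.lt_or_ge K 16 with h | h
  · exact bound h2 (by omega) hE
  · obtain rfl : K = 16 := by omega
    exact tauT_bound2 (by norm_num) (s := 20000) (by norm_num) (fun _ hd => GG_pos hd)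
      (good2_of_cert cert16) (by norm_num) hE

end Pool.Agent.H.MP_d8826e_co.LB
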