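import Mathlib

/-!
Total transversals of uniform hypergraphs: definitions.
-/

set_option autoImplicit false

namespace Pool.Agent.H.MP_d8826e_co.LB

/-- `u` and `v` are neighbours: they are distinct and some edge contains both. -/
def Nbr {V : Type} (E : Finset (Finset V)) (u v : V) : Prop :=
  u ≠ v ∧ ∃ e ∈ E, u ∈ e ∧ v ∈ e

/-- The hypergraph with vertex set `V` and edge set `E` belongs to the class `𝓗_k`: it has an edge,
it is `k`-uniform and has no isolated vertex and no isolated edge. -/
structure InH {V : Type} (k : ℕ) (E : Finset (Finset V)) : Prop where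
  nonempty : E.Nonempty
  uniform : ∀ e ∈ E, e.card = k
  noIsolatedVertex : ∀ v : V, ∃ e ∈ E, v ∈ e
  noIsolatedEdge : ∀ e ∈ E, ∃ f ∈ E, f ≠ e ∧ ∃ v, v ∈ e ∧ v ∈ f

/-- `T` is a total transversal: it meets every edge, and every vertex of `T` has a neighbour
in `T`. -/
structure IsTotalTransversal {V : Type} (E : Finset (Finset V)) (T : Finset V) : Prop where
  meets : ∀ e ∈ E, ∃ v ∈ T, v ∈ e
  total : ∀ v ∈ T, ∃ w ∈ T, Nbr E v w

/-- The minimum size of a total transversal. -/
noncomputable def tauT {V : Type} (E : Finset (Finset V)) : ℕ :=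
  sInf {t | ∃ T : Finset V, IsTotalTransversal E T ∧ T.card = t}

/-- `b k` is the supremum of `τ_t(H) / (n_H + m_H)` over the class `𝓗_k`. -/
noncomputable def b (k : ℕ) : ℝ :=
  sSup {r : ℝ | ∃ (V : Type) (_ : Fintype V) (E : Finset (Finset V)), InH k E ∧
    r = (tauT E : ℝ) / ((Fintype.card V : ℝ) + (E.card : ℝ))}

end Pool.Agent.H.MP_d8826e_co.LB
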