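import Mathlib

/-!
The numerical conditions on the two potential functions `F` and `G`.
-/

set_option autoImplicit false

namespace Pool.Agent.H.MP_d8826e_co.LB

/-- A free vertex of degree at most `j`, which keeps at most `r` edges, loses at least `l` per
pair (edge, vertex). -/
def SlotF (F : ℕ → ℤ) (l : ℤ) (j r : ℕ) : Prop :=
  ∀ a c : ℕ, 0 < c → a + c ≤ j → a ≤ r → l * c ≤ F (a + c) - F a

/-- A vertex of degree at most `D` which is not free, and which keeps at most `r` edges, loses at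
least `l` per pair (edge, vertex). -/
def SlotG (F G : ℕ → ℤ) (l : ℤ) (D r : ℕ) : Prop :=
  ∀ a c : ℕ, 0 < c → a + c ≤ D → a ≤ r → l * c ≤ G (a + c) - F a

/-- The choice of one free vertex of degree `j`. -/
def Play1 (K : ℕ) (N : ℤ) (F G : ℕ → ℤ) (j D : ℕ) : Prop :=
  ∃ l, SlotF F l j j ∧ SlotG F G l D D ∧ N ≤ F j + (j * (K - 1) : ℕ) * l

/-- The choice of a vertex of degree `D` which is not free and of a neighbour. -/
def Play2 (K : ℕ) (N : ℤ) (F G : ℕ → ℤ) (j D : ℕ) : Prop :=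
  ∀ r, r < D → ∃ lam mu, SlotF F lam j r ∧ SlotG F G lam D r ∧ SlotF F mu (max j r) (max j r) ∧
    SlotG F G mu D D ∧ 2 * N ≤ G D + (D * (K - 1) : ℕ) * lam + (F r + (r * (K - 1) : ℕ) * mu)

/-- The numerical conditions on the two potential functions. -/
structure Good (K : ℕ) (N : ℤ) (F G : ℕ → ℤ) : Prop where
  F0 : F 0 = 0
  G0 : G 0 = 0
  play : ∀ j D, 1 ≤ j ∨ 2 ≤ D → (1 ≤ j ∧ Play1 K N F G j D) ∨ (j < D ∧ Play2 K N F G j D)

end Pool.Agent.H.MP_d8826e_co.LB
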