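import Pool.Agent.H.MP_d8826e_co.LB.Step
import Pool.Agent.H.MP_d8826e_co.LB.Play

/-!
The greedy choice of a total transversal.
-/

set_option autoImplicit false

namespace Pool.Agent.H.MP_d8826e_co.LB

open Finset

variable {V : Type} [Fintype V] [DecidableEq V]

theorem deg_mono {R R' : Finset (Finset V)} (h : R' ⊆ R) (u : V) : deg R' u ≤ deg R u :=
  card_le_card (filter_subset_filter _ h)

theorem deg_pos {R : Finset (Finset V)} {u : V} : 0 < deg R u ↔ ∃ e ∈ R, u ∈ e := by
  unfold deg
  rw [card_pos]
  constructor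
  · rintro ⟨e, he⟩
    exact ⟨e, (mem_filter.1 he).1, (mem_filter.1 he).2⟩
  · rintro ⟨e, he, h⟩
    exact ⟨e, mem_filter.2 ⟨he, h⟩⟩

theorem del_card_lt {R : Finset (Finset V)} {v : V} (h : 0 < deg R v) :
    (del R v).card < R.card := by
  obtain ⟨e, he, hv⟩ := deg_pos.1 h
  apply card_lt_card
  rw [ssubset_iff_of_subset (del_subset R v)]
  exact ⟨e, he, fun h2 => (mem_del.1 h2).2 hv⟩

theorem nbr_of_cod {E R : Finset (Finset V)} (hR : R ⊆ E) {u v : V} (huv : u ≠ v)
    (h : 0 < cod R u v) : Nbr E u v := by
  obtain ⟨e, he, h1, h2⟩ := cod_pos.1 h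
  exact ⟨huv, e, hR he, h1, h2⟩

/-- the vertex `t` is free or has a neighbour in `T` -/
def OK (E R : Finset (Finset V)) (T : Finset V) (t : V) : Prop :=
  (∃ w ∈ T, Nbr E t w) ∨ Free E R t

/-- the set `T` is a partial solution for `R` -/
structure Sol (E R : Finset (Finset V)) (T : Finset V) : Prop where
  meets : ∀ e ∈ R, ∃ v ∈ T, v ∈ e
  ok : ∀ t ∈ T, OK E R T t

theorem Sol.insert_free {E R : Finset (Finset V)} (hR : R ⊆ E) {T : Finset V} {v : V}
    (h : Sol E (del R v) T) (hv : Free E R v) : Sol E R (insert v T) := by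
  refine ⟨fun e he => ?_, fun t ht => ?_⟩
  · by_cases hve : v ∈ e
    · exact ⟨v, mem_insert_self _ _, hve⟩
    · obtain ⟨w, hw, hwe⟩ := h.meets e (mem_del.2 ⟨he, hve⟩)
      exact ⟨w, mem_insert_of_mem hw, hwe⟩
  · by_cases htv : t = v
    · rw [htv]
      exact Or.inr hv
    · rcases h.ok t ((mem_insert.1 ht).resolve_left htv) with ⟨w, hw, hn⟩ | hf
      · exact Or.inl ⟨w, mem_insert_of_mem hw, hn⟩
      · rcases hf.of_del with h1 | h1
        · exact Or.inr h1
        · exact Or.inl ⟨v, mem_insert_self _ _, nbr_of_cod hR htv h1⟩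

theorem Sol.insert_pair {E R : Finset (Finset V)} (hR : R ⊆ E) {T : Finset V} {v w : V}
    (h : Sol E (del (del R v) w) T) (hvw : w ≠ v) (hc : 0 < cod R w v) :
    Sol E R (insert v (insert w T)) := by
  have hR1 : del R v ⊆ E := (del_subset R v).trans hR
  have hn := nbr_of_cod hR hvw hc
  refine ⟨fun e he => ?_, fun t ht => ?_⟩
  · by_cases hve : v ∈ e
    · exact ⟨v, mem_insert_self _ _, hve⟩
    · by_cases hwe : w ∈ e
      · exact ⟨w, mem_insert_of_mem (mem_insert_self _ _), hwe⟩
      · obtain ⟨x, hx, hxe⟩ := h.meets e (mem_del.2 ⟨mem_del.2 ⟨he, hve⟩, hwe⟩)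
        exact ⟨x, mem_insert_of_mem (mem_insert_of_mem hx), hxe⟩
  · by_cases htv : t = v
    · rw [htv]
      obtain ⟨h1, e, h2, h3, h4⟩ := hn
      exact Or.inl ⟨w, mem_insert_of_mem (mem_insert_self _ _), h1.symm, e, h2, h4, h3⟩
    · by_cases htw : t = w
      · rw [htw]
        exact Or.inl ⟨v, mem_insert_self _ _, hn⟩
      · have htT : t ∈ T := (mem_insert.1 ((mem_insert.1 ht).resolve_left htv)).resolve_left htw
        rcases h.ok t htT with ⟨x, hx, hxn⟩ | hf
        · exact Or.inl ⟨x, mem_insert_of_mem (mem_insert_of_mem hx), hxn⟩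
        · rcases hf.of_del with h1 | h1
          · rcases h1.of_del with h2 | h2
            · exact Or.inr h2
            · exact Or.inl ⟨v, mem_insert_self _ _, nbr_of_cod hR htv h2⟩
          · exact Or.inl ⟨w, mem_insert_of_mem (mem_insert_self _ _), nbr_of_cod hR1 htw h1⟩

/-- **The greedy algorithm.** -/
theorem greedy {K : ℕ} (hK2 : 2 ≤ K) {N : ℤ} (hN : 0 ≤ N) {F G : ℕ → ℤ} (hg : Good K N F G)
    {E : Finset (Finset V)} (hK : ∀ e ∈ E, e.card = K)
    (hiso : ∀ e ∈ E, ∃ f ∈ E, f ≠ e ∧ ∃ v, v ∈ e ∧ v ∈ f) :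
    ∀ n, ∀ R : Finset (Finset V), R.card ≤ n → R ⊆ E →
      ∃ T : Finset V, Sol E R T ∧ N * T.card ≤ Pot F G E R := by
  intro n
  induction n using Nat.strong_induction_on with
  | _ n ih =>
  intro R hRn hR
  have hKR : ∀ e ∈ R, e.card = K := fun e he => hK e (hR he)
  rcases R.eq_empty_or_nonempty with rfl | ⟨e0, he0⟩
  · refine ⟨∅, ⟨by simp, by simp⟩, ?_⟩
    have : Pot F G E (∅ : Finset (Finset V)) = 0 := by
      unfold Pot
      refine sum_eq_zero fun u _ => ?_
      unfold pot
      have : deg (∅ : Finset (Finset V)) u = 0 := by simp [deg]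
      rw [this, hg.F0, hg.G0]
      simp
    rw [this]
    simp
  set A := univ.filter (fun u => Free E R u) with hA
  set B := univ.filter (fun u => ¬ Free E R u) with hB
  set j := A.sup (deg R) with hj
  set D := B.sup (deg R) with hD
  have hjle : ∀ u, Free E R u → deg R u ≤ j := fun u hu =>
    le_sup (f := deg R) (mem_filter.2 ⟨mem_univ u, hu⟩)
  have hDle : ∀ u, ¬ Free E R u → deg R u ≤ D := fun u hu =>
    le_sup (f := deg R) (mem_filter.2 ⟨mem_univ u, hu⟩)
  have hjD : 1 ≤ j ∨ 2 ≤ D := by
    by_contra hcon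
    push Not at hcon
    obtain ⟨hj0, hD1⟩ := hcon
    obtain ⟨f, hf, hfe, v, hve, hvf⟩ := hiso e0 (hR he0)
    have hdv : 0 < deg R v := deg_pos.2 ⟨e0, he0, hve⟩
    have hnf : ¬ Free E R v := fun h => by
      have := hjle v h
      omega
    have hfR : f ∈ R := by
      by_contra h
      exact hnf ⟨f, hf, h, hvf⟩
    have h2 : 2 ≤ deg R v := by
      unfold deg
      have : ({e0, f} : Finset (Finset V)) ⊆ R.filter fun e => v ∈ e := by
        intro x hx
        rw [mem_insert, mem_singleton] at hx
        rcases hx with rfl | rfl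
        · exact mem_filter.2 ⟨he0, hve⟩
        · exact mem_filter.2 ⟨hfR, hvf⟩
      have h3 := card_le_card this
      rw [card_pair hfe.symm] at h3
      exact h3
    have := hDle v hnf
    omega
  have key : ∀ u, u ∈ (univ : Finset V) → True := fun _ _ => trivial
  rcases hg.play j D hjD with ⟨hj1, l, hl1, hl2, hl3⟩ | ⟨hjD', hp⟩
  · -- one free vertex
    have hAne : A.Nonempty := by
      rw [nonempty_iff_ne_empty]
      intro h
      rw [hj, h, sup_empty] at hj1
      simp at hj1
    obtain ⟨v, hvA, hvj⟩ := exists_mem_eq_sup A hAne (deg R)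
    have hvf : Free E R v := (mem_filter.1 hvA).2
    have hvj' : deg R v = j := hvj.symm
    have hlt : (del R v).card < n := lt_of_lt_of_le (del_card_lt (by omega)) hRn
    obtain ⟨T, hT, hTN⟩ := ih _ hlt (del R v) le_rfl ((del_subset R v).trans hR)
    refine ⟨insert v T, hT.insert_free hR hvf, ?_⟩
    have hst := step hg.F0 hg.G0 hR hKR v l (fun u huv hc => by
      have hdeg := deg_del R u v
      by_cases hu : Free E R u
      · have h1 := hjle u hu
        unfold pot
        rw [if_pos hu, ← hdeg]
        exact hl1 _ _ hc (by omega) (by omega)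
      · have h1 := hDle u hu
        unfold pot
        rw [if_neg hu, ← hdeg]
        exact hl2 _ _ hc (by omega) (by omega))
    have hpv : pot F G E R v = F j := by
      unfold pot
      rw [if_pos hvf, hvj']
    rw [hpv, hvj'] at hst
    have hc : ((insert v T).card : ℤ) ≤ T.card + 1 := by exact_mod_cast card_insert_le v T
    nlinarith
  · -- a pair of neighbours
    have hBne : B.Nonempty := by
      rw [nonempty_iff_ne_empty]
      intro h
      rw [hD, h, sup_empty] at hjD'
      simp at hjD'
    obtain ⟨v, hvB, hvD⟩ := exists_mem_eq_sup B hBne (deg R)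
    have hvf : ¬ Free E R v := (mem_filter.1 hvB).2
    have hvD' : deg R v = D := hvD.symm
    have hdv : 0 < deg R v := by omega
    set Nb := univ.filter (fun u => u ≠ v ∧ 0 < cod R u v) with hNb
    have hNbne : Nb.Nonempty := by
      obtain ⟨e, he, hve⟩ := deg_pos.1 hdv
      have : 1 < e.card := by rw [hKR e he]; omega
      obtain ⟨w, hw, hne⟩ := exists_mem_ne this v
      exact ⟨w, mem_filter.2 ⟨mem_univ w, hne, cod_pos.2 ⟨e, he, hw, hve⟩⟩⟩
    obtain ⟨w, hwN, hwmax⟩ := exists_max_image Nb (deg (del R v)) hNbne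
    obtain ⟨_, hwv, hwc⟩ := mem_filter.1 hwN
    set r := deg (del R v) w with hr
    have hrD : r < D := by
      have h1 := deg_del R w v
      by_cases hw : Free E R w
      · have := hjle w hw
        omega
      · have := hDle w hw
        omega
    obtain ⟨lam, mu, h1, h2, h3, h4, h5⟩ := hp r hrD
    have hR1 : del R v ⊆ E := (del_subset R v).trans hR
    have hlt : (del (del R v) w).card < n :=
      lt_of_le_of_lt (card_le_card (del_subset _ _)) (lt_of_lt_of_le (del_card_lt hdv) hRn)
    obtain ⟨T, hT, hTN⟩ := ih _ hlt (del (del R v) w) le_rfl ((del_subset _ w).trans hR1)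
    refine ⟨insert v (insert w T), hT.insert_pair hR hwv hwc, ?_⟩
    have hst := step hg.F0 hg.G0 hR hKR v lam (fun u huv hc => by
      have hdeg := deg_del R u v
      have hur : deg (del R v) u ≤ r := hwmax u (mem_filter.2 ⟨mem_univ u, huv, hc⟩)
      by_cases hu : Free E R u
      · have h1' := hjle u hu
        unfold pot
        rw [if_pos hu, ← hdeg]
        exact h1 _ _ hc (by omega) hur
      · have h1' := hDle u hu
        unfold pot
        rw [if_neg hu, ← hdeg]
        exact h2 _ _ hc (by omega) hur)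
    have hKR1 : ∀ e ∈ del R v, e.card = K := fun e he => hKR e (del_subset R v he)
    have hst2 := step hg.F0 hg.G0 hR1 hKR1 w mu (fun u huw hc => by
      have hdeg := deg_del (del R v) u w
      by_cases hu : Free E (del R v) u
      · have h1' : deg (del R v) u ≤ max j r := by
          rcases hu.of_del with h6 | h6
          · exact le_trans (deg_mono (del_subset R v) u) (le_trans (hjle u h6) (le_max_left _ _))
          · have huv : u ≠ v := by
              rintro rfl
              have := deg_del_self R u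
              omega
            exact le_trans (hwmax u (mem_filter.2 ⟨mem_univ u, huv, h6⟩)) (le_max_right _ _)
        unfold pot
        rw [if_pos hu, ← hdeg]
        exact h3 _ _ hc (by omega) (by omega)
      · have h6 : ¬ Free E R u := fun h => hu (h.mono (del_subset R v))
        have h1' : deg (del R v) u ≤ D :=
          le_trans (deg_mono (del_subset R v) u) (hDle u h6)
        unfold pot
        rw [if_neg hu, ← hdeg]
        exact h4 _ _ hc (by omega) (by omega))
    have hpv : pot F G E R v = G D := by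
      unfold pot
      rw [if_neg hvf, hvD']
    have hpw : pot F G E (del R v) w = F r := by
      unfold pot
      rw [if_pos (Free.del_of_cod hR hwc)]
    rw [hpv, hvD'] at hst
    rw [hpw, ← hr] at hst2
    have hc : ((insert v (insert w T)).card : ℤ) ≤ T.card + 2 := by
      have h6 := card_insert_le v (insert w T)
      have h7 := card_insert_le w T
      have h8 : (insert v (insert w T)).card ≤ T.card + 2 := by omega
      exact_mod_cast h8
    nlinarith

end Pool.Agent.H.MP_d8826e_co.LB
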