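import Pool.Agent.H.MP_d8826e_co.LB.Defs
import Pool.Agent.H.MP_d8826e_co.LB.Main

/-!
The bound on `b K` from the potential functions.
-/

set_option autoImplicit false

namespace Pool.Agent.H.MP_d8826e_co.LB

open Finset

theorem sum_deg {V : Type} [Fintype V] [DecidableEq V] {E : Finset (Finset V)} {K : ℕ}
    (hK : ∀ e ∈ E, e.card = K) : ∑ u, deg E u = K * E.card := by
  unfold deg
  have h1 : ∀ u : V, (E.filter fun e => u ∈ e).card = ∑ e ∈ E, if u ∈ e then 1 else 0 := by
    intro u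
    rw [card_filter]
  simp only [h1]
  rw [sum_comm]
  have h2 : ∀ e ∈ E, ∑ u : V, (if u ∈ e then 1 else 0) = K := by
    intro e he
    rw [← card_filter, filter_mem_eq_inter, univ_inter, hK e he]
  rw [sum_congr rfl h2, sum_const, smul_eq_mul, mul_comm]

/-- The bound for one hypergraph. -/
theorem tauT_bound {K : ℕ} (hK2 : 2 ≤ K) {s : ℤ} (hs : 0 < s) {F G : ℕ → ℤ}
    (hG : ∀ d, 1 ≤ d → G d = s * (K + d)) (hg : Good K (s * (K * (K + 2)) / 2) F G)
    (he : 2 ∣ s) {V : Type} [Fintype V] {E : Finset (Finset V)} (hE : InH K E) :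
    (K + 2) * tauT E ≤ 2 * (Fintype.card V + E.card) := by
  classical
  obtain ⟨s', rfl⟩ := he
  have hN : 2 * s' * ((K : ℤ) * (K + 2)) / 2 = s' * (K * (K + 2)) := by
    rw [mul_assoc, Int.mul_ediv_cancel_left _ (by norm_num)]
  rw [hN] at hg
  have hs' : 0 < s' := by omega
  obtain ⟨T, hT, hTN⟩ := greedy hK2 (by positivity) hg hE.uniform hE.noIsolatedEdge E.card E le_rfl
    (Subset.refl E)
  have hnf : ∀ u : V, ¬ Free E E u := by
    rintro u ⟨e, h1, h2, _⟩
    exact h2 h1
  have hTT : IsTotalTransversal E T :=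
    ⟨hT.meets, fun t ht => (hT.ok t ht).resolve_right (hnf t)⟩
  have h1 : tauT E ≤ T.card := Nat.sInf_le ⟨T, hTT, rfl⟩
  have h2 : Pot F G E E = 2 * s' * (K * (Fintype.card V + E.card)) := by
    unfold Pot
    have h3 : ∀ u : V, pot F G E E u = 2 * s' * (K + deg E u) := by
      intro u
      unfold pot
      rw [if_neg (hnf u)]
      exact hG _ (deg_pos.2 (hE.noIsolatedVertex u))
    simp only [h3]
    rw [← mul_sum, sum_add_distrib]
    have h4 : (∑ u : V, (deg E u : ℤ)) = K * E.card := by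
      have := sum_deg hE.uniform
      exact_mod_cast this
    rw [h4, sum_const, card_univ, nsmul_eq_mul]
    ring
  rw [h2] at hTN
  have hK0 : (0 : ℤ) < K := by omega
  have h5 : ((K : ℤ) + 2) * T.card ≤ 2 * (Fintype.card V + E.card) := by
    have h6 : (s' * K) * (((K : ℤ) + 2) * T.card) ≤ (s' * K) * (2 * (Fintype.card V + E.card)) := by
      linarith
    exact le_of_mul_le_mul_left h6 (by positivity)
  have h7 : (K + 2) * T.card ≤ 2 * (Fintype.card V + E.card) := by exact_mod_cast h5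
  exact le_trans (Nat.mul_le_mul_left _ h1) h7

theorem b_le_of {K : ℕ} (h : ∀ (V : Type) (_ : Fintype V) (E : Finset (Finset V)), InH K E →
    (K + 2) * tauT E ≤ 2 * (Fintype.card V + E.card)) : b K ≤ 2 / ((K : ℝ) + 2) := by
  refine Real.sSup_le ?_ (by positivity)
  rintro r ⟨V, hV, E, hE, rfl⟩
  have h1 := h V hV E hE
  have h2 : 0 < E.card := card_pos.2 hE.nonempty
  have h3 : (0 : ℝ) < (Fintype.card V : ℝ) + E.card := by positivity
  rw [div_le_div_iff₀ h3 (by positivity)]
  have h4 : ((K : ℝ) + 2) * tauT E ≤ 2 * (Fintype.card V + E.card) := by exact_mod_cast h1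
  linarith

end Pool.Agent.H.MP_d8826e_co.LB
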