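import Pool.Agent.H.MP_d8826e_co.LB.Play

/-!
A finite certificate for the numerical conditions. The unit is chosen such that a vertex of degree
`d ≥ 1` which is not free has potential `20000 * (K + d)`.
-/

set_option autoImplicit false

namespace Pool.Agent.H.MP_d8826e_co.LB

/-- the potential of a free vertex: given by the list `t` up to `K`, linear from `K` on -/
def tf (K : ℕ) (t : List ℕ) (d : ℕ) : ℕ := t.getD (min d K) 0 + 20000 * (d - K)

/-- The data for one value of `D`. -/
structure Row where
  js : ℕ
  nu : ℕ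
  lm : List (ℕ × ℕ)

/-- The conditions on the bound `lam` per pair (edge, vertex). -/
def OkLam (K : ℕ) (t : List ℕ) (D js r lam : ℕ) : Prop :=
  ∀ a < r + 1, ∀ c < D + 1, 0 < c →
    (a + c ≤ D → lam * c + tf K t a ≤ 20000 * (K + (a + c))) ∧
    (a + c ≤ js → lam * c + tf K t a ≤ tf K t (a + c))

instance (K : ℕ) (t : List ℕ) (D js r lam : ℕ) : Decidable (OkLam K t D js r lam) := by
  unfold OkLam
  infer_instance

/-- The conditions for one value of `D` and one value of `r`. -/
def OkR (K : ℕ) (t : List ℕ) (D js nu r lam mu : ℕ) : Prop :=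
  OkLam K t D js r lam ∧ mu ≤ nu ∧ (0 < r → tf K t (r - 1) + mu ≤ tf K t r) ∧
  (0 < js → tf K t (js - 1) + mu ≤ tf K t js) ∧
  K * (K + 2) * 20000 ≤ 20000 * (K + D) + D * (K - 1) * lam + (tf K t r + r * (K - 1) * mu)

instance (K : ℕ) (t : List ℕ) (D js nu r lam mu : ℕ) : Decidable (OkR K t D js nu r lam mu) := by
  unfold OkR
  infer_instance

/-- The conditions for one value of `D`. -/
def OkRow (K : ℕ) (t : List ℕ) (D : ℕ) (w : Row) : Prop :=
  (∀ j < D, w.js < j → tf K t j ≤ tf K t (j - 1) + w.nu) ∧
  (∀ a < D, ∀ c < D + 1, 0 < c → a + c ≤ D → w.nu * c + tf K t a ≤ 20000 * (K + (a + c))) ∧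
  ∀ r < D, OkR K t D w.js w.nu r (w.lm.getD r (0, 0)).1 (w.lm.getD r (0, 0)).2

instance (K : ℕ) (t : List ℕ) (D : ℕ) (w : Row) : Decidable (OkRow K t D w) := by
  unfold OkRow
  infer_instance

/-- The conditions for one value of `K`. -/
def OkCert (K : ℕ) (t : List ℕ) (w : List Row) : Prop :=
  2 ≤ K ∧ tf K t 0 = 0 ∧
  (∀ d < K, tf K t (d + 2) + tf K t d ≤ 2 * tf K t (d + 1)) ∧
  (∀ d < K + 1, 0 < d → tf K t d ≤ 20000 * (K + d)) ∧
  (∀ j < K + 1, 0 < j →
    K * (K + 2) * 10000 + j * (K - 1) * tf K t (j - 1) ≤ tf K t j + j * (K - 1) * tf K t j) ∧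
  K * (K + 2) * 10000 ≤ tf K t K + K * (K - 1) * 20000 ∧
  ∀ D < K + 1, 2 ≤ D → OkRow K t D (w.getD (D - 2) ⟨0, 0, []⟩)

instance (K : ℕ) (t : List ℕ) (w : List Row) : Decidable (OkCert K t w) := by
  unfold OkCert
  infer_instance

/-- the potential of a free vertex -/
def FF (K : ℕ) (t : List ℕ) (d : ℕ) : ℤ := tf K t d

/-- the potential of a vertex which is not free -/
def GG (K : ℕ) (d : ℕ) : ℤ := if d = 0 then 0 else 20000 * (K + d)

theorem GG_pos {K d : ℕ} (h : 1 ≤ d) : GG K d = 20000 * (K + d) := by
  unfold GG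
  rw [if_neg (by omega)]

section

variable {K : ℕ} {t : List ℕ}

theorem FF_tail {d : ℕ} (h : K ≤ d) : FF K t (d + 1) = FF K t d + 20000 := by
  unfold FF tf
  rw [min_eq_right h, min_eq_right (by omega : K ≤ d + 1)]
  push_cast
  have : ((d + 1 - K : ℕ) : ℤ) = ((d - K : ℕ) : ℤ) + 1 := by omega
  rw [this]
  ring

theorem conc (h : ∀ d < K, tf K t (d + 2) + tf K t d ≤ 2 * tf K t (d + 1)) :
    Antitone fun d => FF K t (d + 1) - FF K t d := by
  refine antitone_nat_of_succ_le fun d => ?_
  by_cases hd : d < K
  · have h1 := h d hd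
    unfold FF
    have h2 : ((tf K t (d + 2) + tf K t d : ℕ) : ℤ) ≤ (2 * tf K t (d + 1) : ℕ) := by
      exact_mod_cast h1
    push_cast at h2
    show (tf K t (d + 1 + 1) : ℤ) - tf K t (d + 1) ≤ tf K t (d + 1) - tf K t d
    linarith
  · rw [FF_tail (by omega : K ≤ d), FF_tail (by omega : K ≤ d + 1), FF_tail (by omega : K ≤ d)]
    linarith

theorem inc_ge (h : Antitone fun d => FF K t (d + 1) - FF K t d) (d : ℕ) :
    20000 ≤ FF K t (d + 1) - FF K t d := by
  have h1 := h (Nat.le_add_right d K)
  have h2 := FF_tail (K := K) (t := t) (d := d + K) (by omega)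
  simp only at h1
  linarith

/-- the slope at `m` is a lower bound for all the slopes before -/
theorem slope (h : Antitone fun d => FF K t (d + 1) - FF K t d) {m : ℕ} (a : ℕ) :
    ∀ c, a + c ≤ m + 1 → (FF K t (m + 1) - FF K t m) * c ≤ FF K t (a + c) - FF K t a := by
  intro c
  induction c with
  | zero => intro _; simp
  | succ c ih =>
    intro hc
    have h1 := ih (by omega)
    have h2 := h (show a + c ≤ m by omega)
    simp only at h2
    have h3 : FF K t (a + (c + 1)) = FF K t (a + c + 1) := rfl
    rw [h3]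
    push_cast
    linarith

theorem slotF_of (h : Antitone fun d => FF K t (d + 1) - FF K t d) {m : ℕ} {l : ℤ}
    (hl : 0 < m → l ≤ FF K t m - FF K t (m - 1)) (r : ℕ) : SlotF (FF K t) l m r := by
  intro a c hc hac _
  obtain ⟨m', rfl⟩ : ∃ m', m = m' + 1 := ⟨m - 1, by omega⟩
  have h1 := slope h (m := m') a c hac
  have h2 := hl (by omega)
  rw [Nat.add_sub_cancel] at h2
  have h3 : l * c ≤ (FF K t (m' + 1) - FF K t m') * c :=
    mul_le_mul_of_nonneg_right h2 (by positivity)
  linarith

theorem good_of_cert {w : List Row} (hok : OkCert K t w) :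
    Good K (20000 * (K * (K + 2)) / 2) (FF K t) (GG K) := by
  obtain ⟨hK2, ht0, hconc, hFG, hone, htail, hrow⟩ := hok
  have hN : (20000 * ((K : ℤ) * (K + 2)) / 2) = K * (K + 2) * 10000 := by
    rw [show (20000 : ℤ) * ((K : ℤ) * (K + 2)) = 2 * (K * (K + 2) * 10000) by ring,
      Int.mul_ediv_cancel_left _ (by norm_num)]
  rw [hN]
  have hanti := conc hconc
  have hge := inc_ge hanti
  have hF0 : FF K t 0 = 0 := by
    unfold FF
    rw [ht0]
    rfl
  have hmono : Monotone (FF K t) := monotone_nat_of_le_succ fun d => by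
    have := hge d
    linarith
  have hnn : ∀ d, 0 ≤ FF K t d := fun d => by
    rw [← hF0]
    exact hmono (Nat.zero_le d)
  have hle1 : ∀ d, d ≤ K → FF K t d ≤ 20000 * (K + d) := by
    intro d hd
    rcases Nat.eq_zero_or_pos d with rfl | h0
    · rw [hF0]
      positivity
    · have := hFG d (by omega) h0
      unfold FF
      exact_mod_cast this
  have hle : ∀ d, FF K t d ≤ 20000 * (K + d) := by
    intro d
    by_cases hd : d ≤ K
    · exact hle1 d hd
    · obtain ⟨e, rfl⟩ : ∃ e, d = K + e := ⟨d - K, by omega⟩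
      clear hd
      induction e with
      | zero => exact hle1 _ (by omega)
      | succ e ih =>
        have h1 : FF K t (K + (e + 1)) = FF K t (K + e) + 20000 :=
          FF_tail (Nat.le_add_right K e)
        rw [h1]
        push_cast at ih ⊢
        linarith
  have hFGle : ∀ a c, 0 < c → FF K t (a + c) ≤ GG K (a + c) := by
    intro a c hc
    rw [GG_pos (by omega)]
    exact hle _
  have honeall : ∀ j, 1 ≤ j →
      (K : ℤ) * (K + 2) * 10000 ≤ FF K t j + (j * (K - 1) : ℕ) * (FF K t j - FF K t (j - 1)) := by
    intro j hj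
    by_cases hjK : j ≤ K
    · have h1 := hone j (by omega) hj
      have h2 : ((K * (K + 2) * 10000 + j * (K - 1) * tf K t (j - 1) : ℕ) : ℤ) ≤
          (tf K t j + j * (K - 1) * tf K t j : ℕ) := by exact_mod_cast h1
      have h3 : ((K * (K + 2) * 10000 + j * (K - 1) * tf K t (j - 1) : ℕ) : ℤ) =
          (K : ℤ) * (K + 2) * 10000 + (j * (K - 1) : ℕ) * (tf K t (j - 1) : ℤ) := by
        push_cast
        ring
      have h4 : ((tf K t j + j * (K - 1) * tf K t j : ℕ) : ℤ) =
          (tf K t j : ℤ) + (j * (K - 1) : ℕ) * (tf K t j : ℤ) := by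
        push_cast
        ring
      rw [h3, h4] at h2
      unfold FF
      linarith
    · have h1 : ((K * (K + 2) * 10000 : ℕ) : ℤ) ≤ (tf K t K + K * (K - 1) * 20000 : ℕ) := by
        exact_mod_cast htail
      have h2 : ((K * (K + 2) * 10000 : ℕ) : ℤ) = (K : ℤ) * (K + 2) * 10000 := by push_cast; ring
      have h3 : ((tf K t K + K * (K - 1) * 20000 : ℕ) : ℤ) =
          FF K t K + (K * (K - 1) : ℕ) * 20000 := by
        unfold FF
        push_cast
        ring
      rw [h2, h3] at h1
      have h4 : FF K t K ≤ FF K t j := hmono (by omega)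
      have h5 : FF K t j - FF K t (j - 1) = 20000 := by
        obtain ⟨i, rfl⟩ : ∃ i, j = i + 1 := ⟨j - 1, by omega⟩
        rw [Nat.add_sub_cancel, FF_tail (by omega)]
        ring
      have h6 : ((K * (K - 1) : ℕ) : ℤ) ≤ (j * (K - 1) : ℕ) := by
        exact_mod_cast Nat.mul_le_mul_right (K - 1) (by omega : K ≤ j)
      rw [h5]
      linarith
  refine ⟨hF0, by simp [GG], fun j D hjD => ?_⟩
  by_cases hDj : D ≤ j
  · left
    have hj : 1 ≤ j := by omega
    have hs : SlotF (FF K t) (FF K t j - FF K t (j - 1)) j j := slotF_of hanti (fun _ => le_rfl) j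
    refine ⟨hj, FF K t j - FF K t (j - 1), hs, ?_, honeall j hj⟩
    intro a c hc hac _
    have h1 := hs a c hc (by omega) (by omega)
    have h2 := hFGle a c hc
    linarith
  · push Not at hDj
    have hD2 : 2 ≤ D := by omega
    by_cases hDK : K < D
    · right
      refine ⟨hDj, fun r hr => ⟨20000, 0, ?_, ?_, ?_, ?_, ?_⟩⟩
      · refine slotF_of hanti (fun hj => ?_) r
        have := hge (j - 1)
        rwa [Nat.sub_add_cancel hj] at this
      · intro a c hc hac _
        rw [GG_pos (by omega)]
        have := hle a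
        push_cast
        linarith
      · refine slotF_of hanti (fun hj => ?_) _
        have := hge (max j r - 1)
        rw [Nat.sub_add_cancel hj] at this
        linarith
      · intro a c hc hac _
        have h1 := hFGle a c hc
        have h2 : FF K t a ≤ FF K t (a + c) := hmono (by omega)
        linarith
      · rw [GG_pos (by omega)]
        have h1 := hnn r
        have h2 : ((D * (K - 1) : ℕ) : ℤ) = D * (K - 1) := by
          rw [Nat.cast_mul, Nat.cast_sub (by omega)]
          norm_num
        rw [h2, mul_zero, add_zero]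
        have h3 : (K : ℤ) + 1 ≤ D := by exact_mod_cast hDK
        have h4 : (0 : ℤ) ≤ K := by positivity
        nlinarith
    · push Not at hDK
      obtain ⟨hr1, hr2, hr3⟩ := hrow D (by omega) hD2
      set w0 := w.getD (D - 2) ⟨0, 0, []⟩ with hw0
      have hnu : SlotG (FF K t) (GG K) w0.nu D D := by
        intro a c hc hac _
        have h1 := hr2 a (by omega) c (by omega) hc hac
        rw [GG_pos (by omega)]
        have h2 : ((w0.nu * c + tf K t a : ℕ) : ℤ) ≤ (20000 * (K + (a + c)) : ℕ) := by
          exact_mod_cast h1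
        push_cast at h2 ⊢
        unfold FF
        linarith
      by_cases hjs : w0.js < j
      · left
        have hj : 1 ≤ j := by omega
        have hs : SlotF (FF K t) (FF K t j - FF K t (j - 1)) j j :=
          slotF_of hanti (fun _ => le_rfl) j
        refine ⟨hj, FF K t j - FF K t (j - 1), hs, ?_, honeall j hj⟩
        have h1 := hr1 j hDj hjs
        have h2 : ((tf K t j : ℕ) : ℤ) ≤ (tf K t (j - 1) + w0.nu : ℕ) := by exact_mod_cast h1
        push_cast at h2
        intro a c hc hac ha
        have h3 := hnu a c hc hac ha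
        have h4 : FF K t j - FF K t (j - 1) ≤ w0.nu := by
          unfold FF
          linarith
        have h5 : (FF K t j - FF K t (j - 1)) * (c : ℤ) ≤ w0.nu * c :=
          mul_le_mul_of_nonneg_right h4 (by positivity)
        linarith
      · right
        push Not at hjs
        refine ⟨hDj, fun r hr => ?_⟩
        obtain ⟨h1, h2, h3, h4, h5⟩ := hr3 r hr
        set lam := (w0.lm.getD r (0, 0)).1 with hlam
        set mu := (w0.lm.getD r (0, 0)).2 with hmu
        refine ⟨lam, mu, ?_, ?_, ?_, ?_, ?_⟩
        · intro a c hc hac har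
          have h6 := (h1 a (by omega) c (by omega) hc).2 (by omega)
          have h7 : ((lam * c + tf K t a : ℕ) : ℤ) ≤ (tf K t (a + c) : ℕ) := by exact_mod_cast h6
          push_cast at h7
          unfold FF
          linarith
        · intro a c hc hac har
          have h6 := (h1 a (by omega) c (by omega) hc).1 hac
          rw [GG_pos (by omega)]
          have h7 : ((lam * c + tf K t a : ℕ) : ℤ) ≤ (20000 * (K + (a + c)) : ℕ) := by
            exact_mod_cast h6
          push_cast at h7 ⊢
          unfold FF
          linarith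
        · refine slotF_of hanti (fun hj => ?_) _
          have hA : max j r = r ∨ (0 < j ∧ max j r = j) := by omega
          rcases hA with hA | ⟨hA0, hA⟩
          · rw [hA] at hj ⊢
            have h6 := h3 hj
            have h7 : ((tf K t (r - 1) + mu : ℕ) : ℤ) ≤ (tf K t r : ℕ) := by exact_mod_cast h6
            push_cast at h7
            unfold FF
            linarith
          · rw [hA]
            have h6 := h4 (by omega)
            have h7 : ((tf K t (w0.js - 1) + mu : ℕ) : ℤ) ≤ (tf K t w0.js : ℕ) := by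
              exact_mod_cast h6
            push_cast at h7
            have h8 := hanti (show j - 1 ≤ w0.js - 1 by omega)
            simp only at h8
            rw [Nat.sub_add_cancel hA0, Nat.sub_add_cancel (by omega : 1 ≤ w0.js)] at h8
            unfold FF at h8 ⊢
            linarith
        · intro a c hc hac ha
          have h6 := hnu a c hc hac ha
          have h7 : (mu : ℤ) * c ≤ w0.nu * c :=
            mul_le_mul_of_nonneg_right (by exact_mod_cast h2) (by positivity)
          linarith
        · rw [GG_pos (by omega)]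
          have h7 : ((K * (K + 2) * 20000 : ℕ) : ℤ) ≤ (20000 * (K + D) + D * (K - 1) * lam +
              (tf K t r + r * (K - 1) * mu) : ℕ) := by exact_mod_cast h5
          have h8 : ((K * (K + 2) * 20000 : ℕ) : ℤ) = 2 * ((K : ℤ) * (K + 2) * 10000) := by
            push_cast
            ring
          have h9 : ((20000 * (K + D) + D * (K - 1) * lam + (tf K t r + r * (K - 1) * mu) : ℕ) : ℤ) =
              20000 * ((K : ℤ) + D) + (D * (K - 1) : ℕ) * (lam : ℤ) +
                (FF K t r + (r * (K - 1) : ℕ) * (mu : ℤ)) := by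
            unfold FF
            push_cast
            ring
          rw [h8, h9] at h7
          exact h7

end

end Pool.Agent.H.MP_d8826e_co.LB
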