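import Pool.Agent.H.MP_d8826e_co.LB.Defs

/-!
Degrees, potentials, and the effect of the deletion of a vertex.
-/

set_option autoImplicit false

namespace Pool.Agent.H.MP_d8826e_co.LB

open Finset

variable {V : Type} [Fintype V] [DecidableEq V]

/-- the degree of `u` in `R` -/
def deg (R : Finset (Finset V)) (u : V) : ℕ := (R.filter fun e => u ∈ e).card

/-- the number of edges in `R` which contain `u` and `v` -/
def cod (R : Finset (Finset V)) (u v : V) : ℕ := (R.filter fun e => u ∈ e ∧ v ∈ e).card

/-- the edges in `R` which do not contain `v` -/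
def del (R : Finset (Finset V)) (v : V) : Finset (Finset V) := R.filter fun e => v ∉ e

/-- `u` is free: an edge of `E` which is not in `R` contains `u` -/
def Free (E R : Finset (Finset V)) (u : V) : Prop := ∃ e ∈ E, e ∉ R ∧ u ∈ e

instance (E R : Finset (Finset V)) (u : V) : Decidable (Free E R u) := by
  unfold Free
  infer_instance

/-- the potential of `u` -/
def pot (F G : ℕ → ℤ) (E R : Finset (Finset V)) (u : V) : ℤ :=
  if Free E R u then F (deg R u) else G (deg R u)

/-- the potential -/
def Pot (F G : ℕ → ℤ) (E R : Finset (Finset V)) : ℤ := ∑ u, pot F G E R u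

theorem del_subset (R : Finset (Finset V)) (v : V) : del R v ⊆ R := filter_subset _ _

theorem mem_del {R : Finset (Finset V)} {v : V} {e : Finset V} : e ∈ del R v ↔ e ∈ R ∧ v ∉ e :=
  mem_filter

theorem deg_del (R : Finset (Finset V)) (u v : V) : deg (del R v) u + cod R u v = deg R u := by
  unfold deg cod del
  rw [filter_filter, ← card_union_of_disjoint]
  · congr 1
    ext e
    simp only [mem_union, mem_filter]
    tauto
  · rw [disjoint_left]
    intro e h1 h2
    simp only [mem_filter] at h1 h2
    exact h1.2.1 h2.2.2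

theorem deg_del_self (R : Finset (Finset V)) (v : V) : deg (del R v) v = 0 := by
  unfold deg del
  rw [card_eq_zero, filter_filter, filter_eq_empty_iff]
  intro e _ h
  exact h.1 h.2

theorem cod_comm (R : Finset (Finset V)) (u v : V) : cod R u v = cod R v u := by
  unfold cod
  congr 1
  ext e
  simp only [mem_filter]
  tauto

theorem cod_pos {R : Finset (Finset V)} {u v : V} : 0 < cod R u v ↔ ∃ e ∈ R, u ∈ e ∧ v ∈ e := by
  unfold cod
  rw [card_pos]
  constructor
  · rintro ⟨e, he⟩
    exact ⟨e, (mem_filter.1 he).1, (mem_filter.1 he).2⟩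
  · rintro ⟨e, he, h⟩
    exact ⟨e, mem_filter.2 ⟨he, h⟩⟩

theorem Free.mono {E R R' : Finset (Finset V)} (h : R' ⊆ R) {u : V} (hu : Free E R u) :
    Free E R' u := by
  obtain ⟨e, h1, h2, h3⟩ := hu
  exact ⟨e, h1, fun h4 => h2 (h h4), h3⟩

/-- a vertex which is free after the deletion of `v` was free before or shares an edge with `v` -/
theorem Free.of_del {E R : Finset (Finset V)} {u v : V} (hu : Free E (del R v) u) :
    Free E R u ∨ 0 < cod R u v := by
  obtain ⟨e, h1, h2, h3⟩ := hu
  by_cases h : e ∈ R
  · right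
    rw [mem_del, not_and, not_not] at h2
    exact cod_pos.2 ⟨e, h, h3, h2 h⟩
  · exact Or.inl ⟨e, h1, h, h3⟩

theorem Free.del_of_cod {E R : Finset (Finset V)} (hR : R ⊆ E) {u v : V} (h : 0 < cod R u v) :
    Free E (del R v) u := by
  obtain ⟨e, h1, h2, h3⟩ := cod_pos.1 h
  exact ⟨e, hR h1, fun h4 => (mem_del.1 h4).2 h3, h2⟩

theorem sum_cod {R : Finset (Finset V)} {K : ℕ} (hK : ∀ e ∈ R, e.card = K) (v : V) :
    ∑ u ∈ univ.erase v, cod R u v = deg R v * (K - 1) := by
  have h1 : ∀ u, cod R u v = ∑ e ∈ R.filter (fun e => v ∈ e), if u ∈ e then 1 else 0 := by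
    intro u
    rw [← card_filter, filter_filter]
    unfold cod
    congr 1
    ext e
    simp only [mem_filter]
    tauto
  simp only [h1]
  rw [sum_comm, deg, ← smul_eq_mul, ← sum_const]
  refine sum_congr rfl fun e he => ?_
  obtain ⟨h2, h3⟩ := mem_filter.1 he
  rw [← card_filter]
  have : (univ.erase v).filter (fun u => u ∈ e) = e.erase v := by
    ext u
    simp only [mem_filter, mem_erase, mem_univ, and_true]
  rw [this, card_erase_of_mem h3, hK e h2]

/-- **The step.** The deletion of the edges at `v` lowers the potential. -/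
theorem step {F G : ℕ → ℤ} (hF : F 0 = 0) (hG : G 0 = 0) {E R : Finset (Finset V)} (hR : R ⊆ E)
    {K : ℕ} (hK : ∀ e ∈ R, e.card = K) (v : V) (l : ℤ)
    (h : ∀ u, u ≠ v → 0 < cod R u v → l * cod R u v ≤ pot F G E R u - F (deg (del R v) u)) :
    Pot F G E (del R v) + pot F G E R v + (deg R v * (K - 1) : ℕ) * l ≤ Pot F G E R := by
  unfold Pot
  have h0 : pot F G E (del R v) v = 0 := by
    unfold pot
    rw [deg_del_self]
    split_ifs
    · exact hF
    · exact hG
  rw [← sum_erase_add univ _ (mem_univ v), h0, ← sum_erase_add univ _ (mem_univ v), add_zero]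
  have h1 : ∑ u ∈ univ.erase v, pot F G E (del R v) u + ∑ u ∈ univ.erase v, l * cod R u v ≤
      ∑ u ∈ univ.erase v, pot F G E R u := by
    rw [← sum_add_distrib]
    refine sum_le_sum fun u hu => ?_
    have huv := (mem_erase.1 hu).1
    rcases Nat.eq_zero_or_pos (cod R u v) with hc | hc
    · have hd : deg (del R v) u = deg R u := by
        have := deg_del R u v
        omega
      have hf : Free E (del R v) u ↔ Free E R u :=
        ⟨fun h3 => h3.of_del.resolve_right (by omega), fun h3 => h3.mono (del_subset _ _)⟩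
      have hp : pot F G E (del R v) u = pot F G E R u := by
        unfold pot
        simp only [hd, hf]
      rw [hc, hp]
      simp
    · have hp : pot F G E (del R v) u = F (deg (del R v) u) := by
        unfold pot
        rw [if_pos (Free.del_of_cod hR hc)]
      rw [hp]
      linarith [h u huv hc]
  rw [← mul_sum] at h1
  have h2 : (∑ u ∈ univ.erase v, (cod R u v : ℤ)) = ((deg R v * (K - 1) : ℕ) : ℤ) := by
    rw [← sum_cod hK v]
    push_cast
    rfl
  rw [h2] at h1
  linarith

end Pool.Agent.H.MP_d8826e_co.LB
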